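import Pool.Agent.Helper42.PP.Goals1

/-!
# Project PP, packet PP-B-PSEP: there are enough `P`-functionals

Statement of Helper42.
-/

set_option autoImplicit false

namespace Pool.Agent.Helper91.PP

open Polynomial Module Pool.Agent.Helper51.RP Pool.Agent.Helper42.PP

section abs

variable {p : ℕ} [Fact p.Prime] {V : Type} [AddCommGroup V] [Module (ZMod p)[X] V]
  {P : (ZMod p)[X]}

/-- `V` is killed by the squarefree polynomial `X^m - 1`: the `P`-torsion meets `P V` in zero. -/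
lemma inj_aux {m : ℕ} (hm : m.Coprime p) (hd : P ∣ X ^ m - 1)
    (ht : ∀ v : V, (X ^ m - 1 : (ZMod p)[X]) • v = 0) (v u : V) (hv : P • v = 0)
    (hu : v = P • u) : v = 0 := by
  obtain ⟨R, hR⟩ := hd
  have hsep : (X ^ m - 1 : (ZMod p)[X]).Separable := by
    have h : ((m : ℕ) : ZMod p) ≠ 0 := by
      intro h
      rw [ZMod.natCast_eq_zero_iff] at h
      have h2 : p ∣ 1 := by rw [← Nat.Coprime.gcd_eq_one hm]; exact Nat.dvd_gcd h dvd_rfl
      exact (Fact.out : p.Prime).one_lt.ne' (Nat.dvd_one.mp h2)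
    simpa using Polynomial.separable_X_pow_sub_C (1 : ZMod p) h one_ne_zero
  have hc : IsCoprime P R := by
    rw [hR] at hsep
    exact hsep.isCoprime
  obtain ⟨a, b, hab⟩ := hc
  have h2 : (R * P) • u = 0 := by rw [mul_comm, ← hR]; exact ht u
  have h1 : P • u = (a * P + b * R) • (P • u) := by rw [hab, one_smul]
  rw [add_smul, mul_smul, mul_smul, ← mul_smul R P u, h2, smul_zero, add_zero, ← hu, hv,
    smul_zero] at h1
  exact h1

/-- The quotient `V / P V`. -/
abbrev Wq (V : Type) [AddCommGroup V] [Module (ZMod p)[X] V] (P : (ZMod p)[X]) : Type :=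
  V ⧸ (Ideal.span {P} • (⊤ : Submodule (ZMod p)[X] V))

noncomputable instance modW : Module (AdjoinRoot P) (Wq V P) :=
  inferInstanceAs (Module ((ZMod p)[X] ⧸ Ideal.span {P}) (Wq V P))

lemma smulW (c : (ZMod p)[X]) (w : Wq V P) : AdjoinRoot.mk P c • w = c • w := rfl

lemma memW (v : V) : v ∈ (Ideal.span {P} • (⊤ : Submodule (ZMod p)[X] V)) ↔ ∃ u, v = P • u := by
  rw [Submodule.ideal_span_singleton_smul, Submodule.mem_smul_pointwise_iff_exists]
  constructor
  · rintro ⟨u, -, h⟩; exact ⟨u, h.symm⟩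
  · rintro ⟨u, h⟩; exact ⟨u, trivial, h.symm⟩

/-- The functional attached to a linear functional on `V / P V`. -/
noncomputable def fn (l : Wq V P →ₗ[AdjoinRoot P] AdjoinRoot P) : V →+ AdjoinRoot P :=
  l.toAddMonoidHom.comp
    ((Ideal.span {P} • (⊤ : Submodule (ZMod p)[X] V)).mkQ).toAddMonoidHom

lemma fn_smul (l : Wq V P →ₗ[AdjoinRoot P] AdjoinRoot P) (c : (ZMod p)[X]) (v : V) :
    fn l (c • v) = AdjoinRoot.mk P c * fn l v := by
  have h : fn l (c • v) = l (AdjoinRoot.mk P c •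
    ((Ideal.span {P} • (⊤ : Submodule (ZMod p)[X] V)).mkQ v)) := rfl
  rw [h, map_smul]; rfl

/-- Dual functionals of a linearly independent family. -/
lemma dual {κ W : Type} [Field κ] [AddCommGroup W] [Module κ W] {n : ℕ} (w : Fin n → W)
    (hw : LinearIndependent κ w) :
    ∃ l : Fin n → W →ₗ[κ] κ, ∀ i j, l i (w j) = if i = j then 1 else 0 := by
  obtain ⟨g, hg⟩ := LinearMap.exists_leftInverse_of_injective (Finsupp.linearCombination κ w)
    (LinearMap.ker_eq_bot.mpr hw)
  refine ⟨fun i => (Finsupp.lapply i).comp g, fun i j => ?_⟩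
  have h1 : g (w j) = Finsupp.single j 1 := by
    have h := LinearMap.congr_fun hg (Finsupp.single j 1)
    simpa [Finsupp.linearCombination_single] using h
  simp only [LinearMap.comp_apply, h1, Finsupp.lapply_apply, Finsupp.single_apply]
  by_cases h : i = j
  · simp [h]
  · simp only [h, if_false]
    rw [if_neg fun h' : j = i => h h'.symm]

/-- Part (1), abstract form. -/
lemma part1 [Fact (Irreducible P)] {m : ℕ} (hm : m.Coprime p) (hd : P ∣ X ^ m - 1)
    (ht : ∀ v : V, (X ^ m - 1 : (ZMod p)[X]) • v = 0) {n : ℕ} (v : Fin n → V)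
    (hv : ∀ i, P • v i = 0)
    (hi : ∀ c : Fin n → (ZMod p)[X], ∑ i, c i • v i = 0 → ∀ i, P ∣ c i) :
    ∃ r : Fin n → V →+ AdjoinRoot P, (∀ i c w, r i (c • w) = AdjoinRoot.mk P c * r i w) ∧
      ∀ i j, r i (v j) = if i = j then 1 else 0 := by
  set q := ((Ideal.span {P} • (⊤ : Submodule (ZMod p)[X] V)).mkQ) with hq
  have hw : LinearIndependent (AdjoinRoot P) (fun i => q (v i)) := by
    rw [Fintype.linearIndependent_iff]
    intro g hg
    have hc : ∀ i, ∃ c : (ZMod p)[X], AdjoinRoot.mk P c = g i :=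
      fun i => AdjoinRoot.mk_surjective (g i)
    choose c hc using hc
    have h1 : q (∑ i, c i • v i) = 0 := by
      rw [map_sum, ← hg]
      refine Finset.sum_congr rfl fun i _ => ?_
      rw [← hc i, smulW, map_smul]
    rw [hq, Submodule.mkQ_apply, Submodule.Quotient.mk_eq_zero, memW] at h1
    obtain ⟨u, hu⟩ := h1
    have h2 : P • ∑ i, c i • v i = 0 := by
      rw [Finset.smul_sum]
      refine Finset.sum_eq_zero fun i _ => ?_
      rw [smul_smul, mul_comm, mul_smul, hv i, smul_zero]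
    have h3 := hi c (inj_aux hm hd ht _ u h2 hu)
    intro i
    rw [← hc i, AdjoinRoot.mk_eq_zero]
    exact h3 i
  obtain ⟨l, hl⟩ := dual _ hw
  exact ⟨fun i => fn (l i), fun i c w => fn_smul (l i) c w, fun i j => hl i j⟩

/-- The cardinality of `κ`. -/
lemma cardK (hP : Irreducible P) : Nat.card (AdjoinRoot P) = p ^ P.natDegree := by
  have hfin : Module.Finite (ZMod p) (AdjoinRoot P) :=
    (AdjoinRoot.powerBasis hP.ne_zero).finite
  rw [Module.natCard_eq_pow_finrank (K := ZMod p) (V := AdjoinRoot P), Nat.card_zmod,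
    (AdjoinRoot.powerBasis hP.ne_zero).finrank, AdjoinRoot.powerBasis_dim]

/-- Part (2), abstract form. -/
lemma part2 [Fact (Irreducible P)] {m : ℕ} (hm : m.Coprime p) (hd : P ∣ X ^ m - 1)
    (ht : ∀ v : V, (X ^ m - 1 : (ZMod p)[X]) • v = 0) {n : ℕ} (F : Finset V)
    (hF : F.card = p ^ (P.natDegree * n)) (hv : ∀ x ∈ F, P • x = 0) :
    ∃ r : Fin n → V →+ AdjoinRoot P, (∀ i c w, r i (c • w) = AdjoinRoot.mk P c * r i w) ∧
      ∀ c : Fin n → AdjoinRoot P, (∀ x, ∑ j, c j * r j x = 0) → c = 0 := by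
  classical
  have hP : Irreducible P := Fact.out
  set q := ((Ideal.span {P} • (⊤ : Submodule (ZMod p)[X] V)).mkQ) with hq
  have hinj : Set.InjOn q (F : Set V) := by
    intro x hx y hy hxy
    have h1 : q (x - y) = 0 := by rw [map_sub, hxy, sub_self]
    rw [hq, Submodule.mkQ_apply, Submodule.Quotient.mk_eq_zero, memW] at h1
    obtain ⟨u, hu⟩ := h1
    have h2 : P • (x - y) = 0 := by rw [smul_sub, hv x hx, hv y hy, sub_zero]
    exact sub_eq_zero.mp (inj_aux hm hd ht _ u h2 hu)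
  set F' := F.image q with hF'
  have hcard : F'.card = p ^ (P.natDegree * n) := by
    rw [hF', Finset.card_image_of_injOn hinj, hF]
  -- the span is finite dimensional with many elements
  let S : Submodule (AdjoinRoot P) (Wq V P) := Submodule.span (AdjoinRoot P) (F' : Set (Wq V P))
  have : FiniteDimensional (AdjoinRoot P) S :=
    FiniteDimensional.span_of_finite _ F'.finite_toSet
  have hfin : Finite (AdjoinRoot P) := by
    refine Nat.finite_of_card_ne_zero ?_
    rw [cardK hP]; exact pow_ne_zero _ (Fact.out : p.Prime).ne_zero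
  have : Finite S := Module.finite_of_finite (AdjoinRoot P)
  have hS : Nat.card S = (p ^ P.natDegree) ^ finrank (AdjoinRoot P) S := by
    have := Module.natCard_eq_pow_finrank (K := AdjoinRoot P) (V := S)
    rw [this, cardK hP]
  have hle : p ^ (P.natDegree * n) ≤ Nat.card S := by
    rw [← hcard]
    have : (F' : Set (Wq V P)) ⊆ (S : Set (Wq V P)) := Submodule.subset_span
    have h2 := Set.ncard_le_ncard this (Set.toFinite _)
    rw [Set.ncard_coe_finset] at h2
    exact h2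
  have hn : n ≤ finrank (AdjoinRoot P) S := by
    rw [hS, ← pow_mul] at hle
    have h := (Nat.pow_le_pow_iff_right (Fact.out : p.Prime).one_lt).mp hle
    exact Nat.le_of_mul_le_mul_left h hP.natDegree_pos
  let b := Module.finBasis (AdjoinRoot P) S
  let w : Fin n → Wq V P := fun i => (b (Fin.castLE hn i) : Wq V P)
  have hw : LinearIndependent (AdjoinRoot P) w := by
    have h1 := b.linearIndependent.comp (Fin.castLE hn) (Fin.castLE_injective hn)
    exact h1.map' S.subtype (Submodule.ker_subtype S)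
  obtain ⟨l, hl⟩ := dual _ hw
  refine ⟨fun i => fn (l i), fun i c w => fn_smul (l i) c w, fun c hc => ?_⟩
  funext i
  obtain ⟨v, hv'⟩ := Submodule.mkQ_surjective _ (w i)
  have h := hc v
  have h2 : ∀ j, fn (l j) v = if j = i then 1 else 0 := by
    intro j
    have : fn (l j) v = l j (w i) := by rw [← hv']; rfl
    rw [this, hl j i]
  simp only [h2, mul_ite, mul_one, mul_zero, Finset.sum_ite_eq', Finset.mem_univ, if_true] at h
  exact h

end abs

section grp

variable {p : ℕ} [Fact p.Prime] {K M : Type} [Field K] [Field M] [Algebra K M]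

/-- The quotient, written additively. -/
def VG {M : Type} [Field M] (G : Subgroup Mˣ) : Type := Additive (Mˣ ⧸ G)

instance {M : Type} [Field M] (G : Subgroup Mˣ) : AddCommGroup (VG G) :=
  inferInstanceAs (AddCommGroup (Additive (Mˣ ⧸ G)))

/-- The class of an element. -/
def cls {M : Type} [Field M] (G : Subgroup Mˣ) (x : Mˣ) : VG G :=
  Additive.ofMul (QuotientGroup.mk x : Mˣ ⧸ G)

lemma cls_mul {M : Type} [Field M] (G : Subgroup Mˣ) (x y : Mˣ) :
    cls G (x * y) = cls G x + cls G y := rfl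

lemma cls_one {M : Type} [Field M] (G : Subgroup Mˣ) : cls G 1 = 0 := rfl

lemma cls_pow {M : Type} [Field M] (G : Subgroup Mˣ) (x : Mˣ) (n : ℕ) :
    cls G (x ^ n) = n • cls G x := rfl

lemma cls_prod {M : Type} [Field M] (G : Subgroup Mˣ) {ι : Type} (s : Finset ι) (f : ι → Mˣ) :
    cls G (∏ i ∈ s, f i) = ∑ i ∈ s, cls G (f i) := by
  classical
  induction s using Finset.induction_on with
  | empty => rfl
  | insert a s ha ih => rw [Finset.prod_insert ha, Finset.sum_insert ha, cls_mul, ih]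

lemma cls_eq_zero {M : Type} [Field M] (G : Subgroup Mˣ) (x : Mˣ) : cls G x = 0 ↔ x ∈ G := by
  rw [← cls_one G]
  constructor
  · intro h
    have h2 : (QuotientGroup.mk x : Mˣ ⧸ G) = QuotientGroup.mk 1 := Additive.ofMul.injective h
    exact (QuotientGroup.eq_one_iff x).mp h2
  · intro h
    have h2 : (QuotientGroup.mk x : Mˣ ⧸ G) = QuotientGroup.mk 1 := (QuotientGroup.eq_one_iff x).mpr h
    exact congrArg Additive.ofMul h2

lemma cls_surj {M : Type} [Field M] (G : Subgroup Mˣ) (v : VG G) : ∃ x, cls G x = v := by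
  obtain ⟨x, hx⟩ := QuotientGroup.mk_surjective (Additive.toMul v)
  exact ⟨x, congrArg Additive.ofMul hx⟩

/-- The action on the quotient. -/
def tq (δ : M ≃ₐ[K] M) (G : Subgroup Mˣ) (hs : ∀ x ∈ G, act δ x ∈ G) : VG G →+ VG G :=
  MonoidHom.toAdditive (QuotientGroup.map G G (act δ) hs)

lemma tq_cls (δ : M ≃ₐ[K] M) (G : Subgroup Mˣ) (hs : ∀ x ∈ G, act δ x ∈ G) (x : Mˣ) :
    tq δ G hs (cls G x) = cls G (act δ x) := rfl

lemma act_pow_succ (δ : M ≃ₐ[K] M) (j : ℕ) (x : Mˣ) :
    act (δ ^ (j + 1)) x = act δ (act (δ ^ j) x) := by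
  rw [pow_succ']; rfl

lemma pol_apply (c : (ZMod p)[X]) (δ : M ≃ₐ[K] M) (x : Mˣ) :
    pol c δ x = ∏ j ∈ c.support, (act (δ ^ j) x) ^ (c.coeff j).val := by
  unfold pol
  rw [MonoidHom.finsetProd_apply]
  rfl

section mod

variable (δ : M ≃ₐ[K] M) (G : Subgroup Mˣ) [Module (ZMod p) (VG G)]
  (T : VG G →ₗ[ZMod p] VG G) (hT : ∀ x, T (cls G x) = cls G (act δ x))

include hT

lemma tpow (j : ℕ) (x : Mˣ) : (T ^ j) (cls G x) = cls G (act (δ ^ j) x) := by
  induction j with
  | zero => rfl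
  | succ j ih => rw [pow_succ', Module.End.mul_apply, ih, hT, ← act_pow_succ]

lemma cls_pol (c : (ZMod p)[X]) (x : Mˣ) : cls G (pol c δ x) = aeval T c (cls G x) := by
  rw [pol_apply, cls_prod, Polynomial.aeval_def, Polynomial.eval₂_eq_sum, Polynomial.sum_def,
    LinearMap.sum_apply]
  refine Finset.sum_congr rfl fun j _ => ?_
  rw [cls_pow, Module.End.mul_apply, tpow δ G T hT, Module.algebraMap_end_apply,
    ← Nat.cast_smul_eq_nsmul (ZMod p), ZMod.natCast_zmod_val]

lemma fin_aux [Module (ZMod p)[X] (VG G)]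
    (hsm : ∀ (c : (ZMod p)[X]) (v : VG G), c • v = aeval T c v) (P : (ZMod p)[X])
    (hP : Irreducible P) {m : ℕ} (hm : m.Coprime p) (hδ : δ ^ m = 1) (hd : P ∣ X ^ m - 1) :
    (∀ (n : ℕ) (x : Fin n → Mˣ), (∀ i, pol P δ (x i) ∈ G) →
    (∀ c : Fin n → (ZMod p)[X], (∏ i, pol (c i) δ (x i)) ∈ G → ∀ i, P ∣ c i) →
    ∃ rho : Fin n → Mˣ → AdjoinRoot P, (∀ i, IsP δ P (rho i)) ∧ (∀ i, ∀ x ∈ G, rho i x = 0) ∧
      ∀ i j, rho i (x j) = if i = j then 1 else 0) ∧
  ∀ n : ℕ, (∃ F : Finset Mˣ, F.card = p ^ (P.natDegree * n) ∧ (∀ x ∈ F, pol P δ x ∈ G) ∧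
      ∀ x ∈ F, ∀ y ∈ F, x ≠ y → x / y ∉ G) →
    ∃ h : Fin n → Mˣ → AdjoinRoot P, (∀ j, IsP δ P (h j)) ∧ (∀ j, ∀ x ∈ G, h j x = 0) ∧
      ∀ c : Fin n → AdjoinRoot P, (∀ x, ∑ j, c j * h j x = 0) → c = 0 := by
  have hfP : Fact (Irreducible P) := ⟨hP⟩
  have hX : ∀ x, (X : (ZMod p)[X]) • cls G x = cls G (act δ x) := by
    intro x; rw [hsm, aeval_X, hT]
  have hpol : ∀ (c : (ZMod p)[X]) (x : Mˣ), cls G (pol c δ x) = c • cls G x := by
    intro c x
    rw [hsm, cls_pol δ G T hT]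
  have ht : ∀ v : VG G, (X ^ m - 1 : (ZMod p)[X]) • v = 0 := by
    intro v
    obtain ⟨x, rfl⟩ := cls_surj G v
    rw [hsm, map_sub, map_pow, aeval_X, map_one, LinearMap.sub_apply, tpow δ G T hT, hδ]
    exact sub_self _
  refine ⟨fun n x hx hi => ?_, fun n hF => ?_⟩
  · obtain ⟨r, hr, hr2⟩ := part1 (P := P) hm hd ht (fun i => cls G (x i))
      (fun i => by rw [← hpol, cls_eq_zero]; exact hx i)
      (fun c hc => hi c (by
        rw [← cls_eq_zero, cls_prod, ← hc]
        exact Finset.sum_congr rfl fun i _ => hpol _ _))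
    refine ⟨fun i y => r i (cls G y), fun i => ⟨fun a b => ?_, fun a => ?_⟩, fun i a ha => ?_, hr2⟩
    · show r i (cls G (a * b)) = r i (cls G a) + r i (cls G b)
      rw [cls_mul, map_add]
    · show r i (cls G (act δ a)) = AdjoinRoot.root P * r i (cls G a)
      rw [← hX, hr]; rfl
    · show r i (cls G a) = 0
      rw [(cls_eq_zero G a).mpr ha, map_zero]
  · classical
    obtain ⟨F, hF, hF1, hF2⟩ := hF
    have hinj : Set.InjOn (cls G) (F : Set Mˣ) := by
      intro a ha b hb hab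
      by_contra hne
      refine hF2 a ha b hb hne ?_
      have h1 : cls G (a / b) = cls G a - cls G b := rfl
      rw [← cls_eq_zero, h1, hab, sub_self]
    obtain ⟨r, hr, hr2⟩ := part2 (P := P) hm hd ht (n := n) (F.image (cls G))
      (by rw [Finset.card_image_of_injOn hinj, hF])
      (fun v hv => by
        obtain ⟨a, ha, rfl⟩ := Finset.mem_image.mp hv
        rw [← hpol, cls_eq_zero]; exact hF1 a ha)
    refine ⟨fun i y => r i (cls G y), fun i => ⟨fun a b => ?_, fun a => ?_⟩, fun i a ha => ?_, ?_⟩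
    · show r i (cls G (a * b)) = r i (cls G a) + r i (cls G b)
      rw [cls_mul, map_add]
    · show r i (cls G (act δ a)) = AdjoinRoot.root P * r i (cls G a)
      rw [← hX, hr]; rfl
    · show r i (cls G a) = 0
      rw [(cls_eq_zero G a).mpr ha, map_zero]
    · intro c hc
      refine hr2 c fun v => ?_
      obtain ⟨a, rfl⟩ := cls_surj G v
      exact hc a

end mod

lemma ex_aux (δ : M ≃ₐ[K] M) (G : Subgroup Mˣ) [Module (ZMod p) (VG G)]
    (hs : ∀ x ∈ G, act δ x ∈ G) :
    ∃ T : VG G →ₗ[ZMod p] VG G, ∀ x, T (cls G x) = cls G (act δ x) :=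
  ⟨(tq δ G hs).toZModLinearMap p, fun x => tq_cls δ G hs x⟩

lemma ex_mod (G : Subgroup Mˣ) [Module (ZMod p) (VG G)] (T : VG G →ₗ[ZMod p] VG G) :
    ∃ _i : Module (ZMod p)[X] (VG G), ∀ (c : (ZMod p)[X]) (v : VG G), c • v = aeval T c v :=
  ⟨Module.compHom (VG G) (aeval T).toRingHom, fun _ _ => rfl⟩

theorem p_sep : P_SEP := by
  intro p _ K M _ _ _ m δ P hm0 hm hδ hP hd G hG hs
  have hp0 : ∀ v : VG G, p • v = 0 := by
    intro v
    obtain ⟨x, rfl⟩ := cls_surj G v
    rw [← cls_pow, cls_eq_zero]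
    exact hG _ ⟨x, rfl⟩
  let i1 : Module (ZMod p) (VG G) := AddCommGroup.zmodModule hp0
  obtain ⟨T, hT⟩ := ex_aux (p := p) δ G hs
  obtain ⟨i2, hsm⟩ := ex_mod (p := p) G T
  exact fin_aux δ G T hT hsm P hP hm hδ hd

end grp

end Pool.Agent.Helper91.PP
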